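import Pool.Agent.H.MP_d93d44_co.A

namespace Pool.Agent.H.MP_12e063_co.A

open Matrix Finset Pool.Agent.H.MP_d93d44_co.A

section General

variable {W : Type} [Fintype W]

def E (A : Matrix W W ℂ) (d : ℕ) : Submodule ℂ (W → ℂ) :=
  Submodule.span ℂ {w | ∃ k : ℤ, k.natAbs ≤ d ∧ A *ᵥ w = (4 * k : ℂ) • w}

theorem step (A : Matrix W W ℂ) (d : ℕ) (k : ℤ) (hk : k.natAbs = d + 1) (f g : W → ℂ)
    (hg : g ∈ E A d) (h : A *ᵥ f = (4 * k : ℂ) • f + g) : f ∈ E A (d + 1) := by
  have mono : E A d ≤ E A (d + 1) := Submodule.span_mono fun w ⟨j, a, b⟩ => ⟨j, by omega, b⟩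
  have : ∃ x ∈ E A d, A *ᵥ x = (4 * k : ℂ) • x + g := by
    clear h
    induction hg using Submodule.span_induction with
    | mem w hw =>
      obtain ⟨j, a, b⟩ := hw
      have hne : (4 * j - 4 * k : ℂ) ≠ 0 := by
        have : (4 * j - 4 * k : ℤ) ≠ 0 := by omega
        exact_mod_cast this
      refine ⟨(4 * j - 4 * k : ℂ)⁻¹ • w, Submodule.smul_mem _ _ (Submodule.subset_span ⟨j, a, b⟩), ?_⟩
      rw [mulVec_smul, b]
      funext v
      simp only [Pi.smul_apply, Pi.add_apply, smul_eq_mul]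
      linear_combination w v * inv_mul_cancel₀ hne
    | zero => exact ⟨0, zero_mem _, by simp⟩
    | add x y _ _ hx hy =>
      obtain ⟨a, a1, a2⟩ := hx
      obtain ⟨b, b1, b2⟩ := hy
      exact ⟨a + b, add_mem a1 b1, by rw [mulVec_add, a2, b2, smul_add]; abel⟩
    | smul c x _ hx =>
      obtain ⟨a, a1, a2⟩ := hx
      exact ⟨c • a, Submodule.smul_mem _ _ a1, by rw [mulVec_smul, a2, smul_add, smul_comm]⟩
  obtain ⟨x, x1, x2⟩ := this
  have : f - x ∈ E A (d + 1) := Submodule.subset_span ⟨k, hk.le, by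
    rw [mulVec_sub, h, x2, smul_sub]; abel⟩
  simpa using add_mem this (mono x1)

theorem diam_ge [Nonempty W] (G : SimpleGraph W) (hG : G.Connected) (l : W → ℕ)
    (hl : ∀ u v, G.Adj u v → l v ≤ l u + 1) (u v : W) : l v ≤ l u + G.diam := by
  have : ∀ (a b : W) (p : G.Walk a b), l b ≤ l a + p.length := fun a b p => by
    induction p with
    | nil => simp
    | cons h p ih => have := hl _ _ h; rw [SimpleGraph.Walk.length_cons]; omega
  obtain ⟨p, hp⟩ := hG.exists_walk_length_eq_dist u v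
  have a := this u v p
  have b := G.dist_le_diam (SimpleGraph.connected_iff_ediam_ne_top.1 hG) (u := u) (v := v)
  omega

end General

def sz (N j : ℕ) : ℕ := if j % 2 = 0 then 4 * (N + 1 - j / 2) else 4 * (j / 2 + 1)

abbrev V0 (N : ℕ) := Σ j : Fin (2 * N + 2), Fin (sz N j)

def G0 (N : ℕ) : SimpleGraph (V0 N) where
  Adj u v := u.1.1 + 1 = v.1.1 ∨ v.1.1 + 1 = u.1.1
  symm := ⟨fun _ _ h => h.symm⟩
  loopless := ⟨fun _ h => by omega⟩

instance (N : ℕ) : DecidableRel (G0 N).Adj := fun _ _ => inferInstanceAs (Decidable (_ ∨ _))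

theorem sz_pos (N j : ℕ) (h : j < 2 * N + 2) : 0 < sz N j := by
  unfold sz
  split_ifs <;> omega

theorem sz_le (N j : ℕ) (h : j ≤ 2 * N + 2) : sz N j ≤ 4 * (N + 1) := by
  unfold sz
  split_ifs <;> omega

theorem lay (N : ℕ) (F : ℕ → ℂ) (j : ℕ) (hj : j ≤ 2 * N + 2) :
    ∑ u : V0 N, (if u.1.1 = j then F u.1.1 else 0) = sz N j * F j := by
  rw [Fintype.sum_sigma]
  simp only [sum_const, card_univ, Fintype.card_fin, nsmul_eq_mul, mul_ite, mul_zero]
  rcases hj.lt_or_eq with h | h
  · rw [sum_eq_single ⟨j, h⟩]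
    · simp
    · intro b _ hb
      exact if_neg fun e => hb (Fin.ext e)
    · simp
  · rw [sum_eq_zero fun b _ => if_neg (by omega), h, sz, if_pos (by omega),
      show N + 1 - (2 * N + 2) / 2 = 0 by omega]
    simp

theorem act (N : ℕ) (F : ℕ → ℂ) (v : V0 N) :
    ((G0 N).adjMatrix ℂ *ᵥ fun u => F u.1.1) v = sz N (v.1.1 + 1) * F (v.1.1 + 1) +
      if v.1.1 = 0 then 0 else sz N (v.1.1 - 1) * F (v.1.1 - 1) := by
  have h := v.1.2
  rw [← lay N F _ (by omega), ← lay N F _ (by omega), mulVec, dotProduct]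
  have : (if v.1.1 = 0 then 0 else ∑ u : V0 N, if u.1.1 = v.1.1 - 1 then F u.1.1 else 0) =
      ∑ u : V0 N, if u.1.1 + 1 = v.1.1 then F u.1.1 else 0 := by
    split_ifs with e
    · exact (sum_eq_zero fun u _ => if_neg (by omega)).symm
    · exact sum_congr rfl fun u _ => if_congr (by omega) rfl rfl
  rw [this, ← sum_add_distrib]
  refine sum_congr rfl fun u _ => ?_
  simp only [SimpleGraph.adjMatrix_apply, G0]
  split_ifs <;> first | omega | simp

noncomputable def f (d : ℕ) (ε : ℂ) (j : ℕ) : ℂ :=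
  (-1) ^ (j / 2) * (j / 2).choose d * if j % 2 = 0 then 1 else ε

theorem ch (i d : ℕ) : ((i : ℂ) + 1) * i.choose d = (i.choose d + i.choose (d + 1)) * (d + 1) := by
  have := Nat.add_one_mul_choose_eq i d
  rw [Nat.choose_succ_succ'] at this
  exact_mod_cast this

theorem act_f (N d : ℕ) (ε : ℂ) (hε : ε * ε = 1) :
    ((G0 N).adjMatrix ℂ *ᵥ fun u => f d ε u.1.1) = (4 * (ε * (d + 1))) • (fun u => f d ε u.1.1) +
      if d = 0 then 0 else (2 * (d - N - 1) : ℂ) •
        ((fun u => f (d - 1) 1 u.1.1) - fun u => f (d - 1) (-1) u.1.1) := by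
  funext v
  rw [act]
  have h := v.1.2
  simp only [Pi.add_apply, Pi.smul_apply, smul_eq_mul, ite_apply, Pi.zero_apply, Pi.sub_apply]
  generalize v.1.1 = j at *
  rcases Nat.even_or_odd' j with ⟨i, rfl | rfl⟩
  · have a1 : (2 * i + 1) / 2 = i := by omega
    have a2 : (2 * i + 1) % 2 = 1 := by omega
    have a3 : 2 * i / 2 = i := by omega
    have a4 : 2 * i % 2 = 0 := by omega
    simp only [sz, f, a1, a2, a3, a4, one_ne_zero, if_false, if_true, sub_self, mul_zero, ite_self]
    rcases i with _ | i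
    · rcases d with _ | d <;> simp
    · have b1 : (2 * (i + 1) - 1) / 2 = i := by omega
      have b2 : (2 * (i + 1) - 1) % 2 = 1 := by omega
      rw [if_neg (by omega), b1, b2, if_neg one_ne_zero, if_neg one_ne_zero]
      have c1 := ch (i + 1) d
      have c2 := ch i d
      rw [Nat.choose_succ_succ'] at c1
      push_cast at c1 ⊢
      linear_combination 4 * ε * (-1) ^ (i + 1) * (c1 - c2)
  · have a1 : (2 * i + 1) / 2 = i := by omega
    have a2 : (2 * i + 1) % 2 = 1 := by omega
    have a3 : 2 * i / 2 = i := by omega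
    have a4 : 2 * i % 2 = 0 := by omega
    have a5 : (2 * i + 1 + 1) / 2 = i + 1 := by omega
    have a6 : (2 * i + 1 + 1) % 2 = 0 := by omega
    obtain ⟨r, rfl⟩ : ∃ r, N = i + r := ⟨N - i, by omega⟩
    have a7 : i + r + 1 - (i + 1) = r := by omega
    have a8 : i + r + 1 - i = r + 1 := by omega
    simp only [sz, f, a1, a2, a3, a4, a5, a6, a7, a8, one_ne_zero, if_false, if_true,
      Nat.add_sub_cancel, Nat.succ_ne_zero]
    rcases d with _ | d
    · simp only [Nat.choose_zero_right, if_true]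
      push_cast
      linear_combination (-4 * (-1) ^ i) * hε
    · have c := ch i d
      rw [if_neg (by omega), Nat.choose_succ_succ', Nat.add_sub_cancel]
      push_cast
      linear_combination (-4 * (-1) ^ i * (d + 2) * i.choose (d + 1)) * hε + 4 * (-1) ^ i * c

theorem f_mem (N d : ℕ) : ∀ ε : ℤ, ε = 1 ∨ ε = -1 →
    (fun u : V0 N => f d ε u.1.1) ∈ E ((G0 N).adjMatrix ℂ) (d + 1) := by
  induction d with
  | zero =>
    intro ε hε
    refine step _ 0 ε (by omega) _ 0 (zero_mem _) ?_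
    rw [act_f N 0 ε (by rcases hε with rfl | rfl <;> simp)]
    simp
  | succ d ih =>
    intro ε hε
    refine step _ (d + 1) (ε * (d + 2)) (by rcases hε with rfl | rfl <;> omega) _ _
      (Submodule.smul_mem _ (2 * ((d + 1 : ℕ) - N - 1) : ℂ)
        (sub_mem (ih 1 (Or.inl rfl)) (ih (-1) (Or.inr rfl)))) ?_
    rw [act_f N (d + 1) ε (by rcases hε with rfl | rfl <;> simp), if_neg (by omega)]
    push_cast
    rw [add_assoc (d : ℂ) 1 1, one_add_one_eq_two]

def v0 (N : ℕ) : V0 N := ⟨⟨2 * N, by omega⟩, ⟨0, sz_pos _ _ (by omega)⟩⟩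

theorem single_mem (N : ℕ) : (Pi.single (v0 N) 1 : V0 N → ℂ) ∈ E ((G0 N).adjMatrix ℂ) (N + 1) := by
  have h1 := Submodule.smul_mem _ ((-1) ^ N / 8 : ℂ)
    (add_mem (f_mem N N 1 (Or.inl rfl)) (f_mem N N (-1) (Or.inr rfl)))
  have e : ((-1) ^ N / 8 : ℂ) • ((fun u : V0 N => f N (1 : ℤ) u.1.1) +
      fun u => f N (-1 : ℤ) u.1.1) = fun u => if u.1.1 = 2 * N then 1 / 4 else 0 := by
    funext u
    have h := u.1.2
    simp only [Pi.smul_apply, Pi.add_apply, smul_eq_mul, f]
    generalize u.1.1 = j at *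
    by_cases a : j % 2 = 0
    · by_cases b : j = 2 * N
      · have : ((-1 : ℂ) ^ N) ^ 2 = 1 := by rw [← pow_mul, mul_comm, pow_mul]; simp
        rw [if_pos a, if_pos a, if_pos b, show j / 2 = N by omega, Nat.choose_self]
        push_cast
        linear_combination this / 4
      · rw [if_neg b, Nat.choose_eq_zero_of_lt (by omega)]
        simp
    · rw [if_neg a, if_neg a, if_neg (by omega)]
      simp
  rw [e] at h1
  have h2 : (Pi.single (v0 N) 1 - fun u : V0 N => if u.1.1 = 2 * N then (1 / 4 : ℂ) else 0) ∈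
      E ((G0 N).adjMatrix ℂ) (N + 1) := by
    refine Submodule.subset_span ⟨0, by simp, ?_⟩
    funext v
    have h := v.1.2
    rw [mulVec_sub, Pi.sub_apply, act N fun j => if j = 2 * N then 1 / 4 else 0]
    have s : (sz N (2 * N) : ℂ) = 4 := by
      rw [sz, if_pos (by omega), show N + 1 - 2 * N / 2 = 1 by omega]
      simp
    simp only [mulVec_single_one, col_apply, SimpleGraph.adjMatrix_apply, G0, v0]
    by_cases a : v.1.1 + 1 = 2 * N
    · rw [if_pos (Or.inl a), if_pos a, a, s, if_neg (by omega : ¬ v.1.1 - 1 = 2 * N)]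
      simp
    · by_cases b : 2 * N + 1 = v.1.1
      · rw [if_pos (Or.inr b), if_neg a, if_neg (by omega), show v.1.1 - 1 = 2 * N by omega, s]
        simp
      · rw [if_neg (by omega), if_neg a]
        split_ifs <;> first | omega | simp
  simpa using add_mem h2 h1

theorem conn0 (N : ℕ) : (G0 N).Connected := by
  have key : ∀ (j : ℕ) (u : V0 N), u.1.1 = j →
      (G0 N).Reachable u ⟨⟨1, by omega⟩, ⟨0, sz_pos _ _ (by omega)⟩⟩ := fun j => by
    induction j using Nat.strong_induction_on with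
    | _ j ih =>
      intro u hu
      have h := u.1.2
      rcases j with _ | j
      · exact SimpleGraph.Adj.reachable (Or.inl (by simp [hu]))
      · exact (SimpleGraph.Adj.reachable (Or.inr hu.symm :
          (G0 N).Adj u ⟨⟨j, by omega⟩, ⟨0, sz_pos _ _ (by omega)⟩⟩)).trans (ih j (by omega) _ rfl)
  have : Nonempty (V0 N) := ⟨v0 N⟩
  exact ⟨fun u v => (key _ u rfl).trans (key _ v rfl).symm⟩

def G (N : ℕ) : SimpleGraph (V0 N × Bool) := G0 N □ ⊤

instance (N : ℕ) : DecidableRel (G N).Adj := fun _ _ =>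
  decidable_of_iff _ SimpleGraph.boxProd_adj.symm

theorem conn (N : ℕ) : (G N).Connected := (conn0 N).boxProd SimpleGraph.connected_top

theorem actG (N : ℕ) (w : V0 N × Bool → ℂ) (x : V0 N × Bool) : ((G N).adjMatrix ℂ *ᵥ w) x =
    ((G0 N).adjMatrix ℂ *ᵥ fun u => w (u, x.2)) x.1 + w (x.1, !x.2) := by
  obtain ⟨v, b⟩ := x
  simp only [mulVec, dotProduct, Fintype.sum_prod_type, Fintype.sum_bool,
    SimpleGraph.adjMatrix_apply, G, SimpleGraph.boxProd_adj]
  cases b <;> simp [sum_add_distrib, add_comm]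

theorem pst (N : ℕ) (s : ℂ) (hs : s = 1 ∨ s = -1) :
    NormedSpace.exp ((s * (Real.pi / 2 * Complex.I)) • (G N).adjMatrix ℂ) *ᵥ
      Pi.single (v0 N, false) 1 = Pi.single (v0 N, true) (s * Complex.I) := by
  have key : ∀ ε : ℂ, ε = 1 ∨ ε = -1 → ∀ w ∈ E ((G0 N).adjMatrix ℂ) (N + 1),
      NormedSpace.exp ((s * (Real.pi / 2 * Complex.I)) • (G N).adjMatrix ℂ) *ᵥ
        (fun x => (if x.2 then ε else 1) * w x.1) =
      (s * ε * Complex.I) • fun x => (if x.2 then ε else 1) * w x.1 := by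
    intro ε hε w hw
    induction hw using Submodule.span_induction with
    | mem w hw =>
      obtain ⟨k, -, hk⟩ := hw
      rw [exp_eig _ _ (s * (Real.pi / 2 * Complex.I) * (4 * k + ε))]
      · congr 1
        have e : s * (Real.pi / 2 * Complex.I) * (4 * k + ε) =
            s * (k * (2 * Real.pi * Complex.I)) + s * ε * (Real.pi / 2 * Complex.I) := by ring
        rw [e, Complex.exp_add]
        rcases hs with rfl | rfl <;> rcases hε with rfl | rfl <;>
          simp [Complex.exp_neg, Complex.exp_pi_div_two_mul_I]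
      · rw [smul_mulVec, mul_smul (_ * _)]
        congr 1
        funext x
        rw [actG]
        have := congrFun (mulVec_smul ((G0 N).adjMatrix ℂ) (if x.2 then ε else 1) w) x.1
        rw [hk] at this
        refine (congrArg (· + _) this).trans ?_
        obtain ⟨v, b⟩ := x
        cases b <;> rcases hε with rfl | rfl <;> simp <;> ring
    | zero => simp [← Pi.zero_def]
    | add x y _ _ hx hy =>
      simp only [Pi.add_apply, mul_add] at hx hy ⊢
      rw [← Pi.add_def, mulVec_add, hx, hy, smul_add]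
    | smul c x _ hx =>
      simp only [Pi.smul_apply, smul_eq_mul, mul_left_comm _ c]
      have := congrArg (c • ·) hx
      simp only [← mulVec_smul, smul_comm c] at this
      exact this
  have a := key 1 (Or.inl rfl) _ (single_mem N)
  have b := key (-1) (Or.inr rfl) _ (single_mem N)
  have e : (Pi.single (v0 N, false) 1 : V0 N × Bool → ℂ) = (1 / 2 : ℂ) •
      ((fun x => (if x.2 then 1 else 1) * (Pi.single (v0 N) 1 : V0 N → ℂ) x.1) +
        fun x => (if x.2 then -1 else 1) * (Pi.single (v0 N) 1 : V0 N → ℂ) x.1) := by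
    funext ⟨v, c⟩
    cases c <;> by_cases h : v = v0 N <;> simp [h] <;> norm_num
  rw [e, mulVec_smul, mulVec_add, a, b]
  funext ⟨v, c⟩
  cases c <;> by_cases h : v = v0 N <;> simp [h]
  ring

theorem card_le (N : ℕ) : 2 * N + 2 ≤ Fintype.card (V0 N × Bool) ∧
    Fintype.card (V0 N × Bool) ≤ 16 * (N + 1) ^ 2 := by
  rw [Fintype.card_prod, Fintype.card_sigma, Fintype.card_bool]
  simp only [Fintype.card_fin]
  have a := card_nsmul_le_sum univ (fun j : Fin (2 * N + 2) => sz N j) 1
    fun j _ => sz_pos N j j.2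
  have b := sum_le_card_nsmul univ (fun j : Fin (2 * N + 2) => sz N j) (4 * (N + 1))
    fun j _ => sz_le N j j.2.le
  simp only [card_univ, Fintype.card_fin, smul_eq_mul] at a b
  constructor <;> nlinarith

theorem deg_le (N : ℕ) (x : V0 N × Bool) : (G N).degree x ≤ 9 * (N + 1) := by
  have h := x.1.1.2
  have a := actG N (Function.const _ 1) x
  have b := act N (fun _ => 1) x.1
  rw [SimpleGraph.adjMatrix_mulVec_const_apply] at a
  have c := a.trans (congrArg (· + 1) b)
  have d1 := sz_le N (x.1.1.1 + 1) (by omega)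
  have d2 := sz_le N (x.1.1.1 - 1) (by omega)
  simp only [mul_one] at c
  split_ifs at c
  · have : (G N).degree x = sz N (x.1.1.1 + 1) + 0 + 1 := by exact_mod_cast c
    omega
  · have : (G N).degree x = sz N (x.1.1.1 + 1) + sz N (x.1.1.1 - 1) + 1 := by exact_mod_cast c
    omega

theorem edges_le (N : ℕ) : (G N).edgeFinset.card ≤ 72 * (N + 1) ^ 3 := by
  have a := (G N).sum_degrees_eq_twice_card_edges
  have b := sum_le_card_nsmul univ (fun x => (G N).degree x) _ fun x _ => deg_le N x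
  have c := Nat.mul_le_mul_right (9 * (N + 1)) (card_le N).2
  rw [card_univ, smul_eq_mul] at b
  nlinarith

theorem lip (N : ℕ) (u v : V0 N × Bool) (h : (G N).Adj u v) : v.1.1.1 ≤ u.1.1.1 + 1 := by
  rcases SimpleGraph.boxProd_adj.1 h with ⟨h | h, -⟩ | ⟨-, h⟩
  · omega
  · omega
  · rw [h]
    omega

end Pool.Agent.H.MP_12e063_co.A
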